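import Mathlib
import Pool.Graph.R_seed8.H410R3.AX.Defs
import Pool.Agent.H50.AXA.Main

/-!
# Topological conjugacy of Axiom A surface diffeomorphisms is not Borel

For the two-dimensional torus `M` the relation of topological conjugacy, restricted to the Axiom A
diffeomorphisms, is not a Borel subset of `Diff^∞(M) × Diff^∞(M)`; it is a complete analytic set.
-/

open Set MeasureTheory
open scoped Manifold ContDiff
open Pool.Agent.H410R3.KS (DiffR DiffR.map crTopology TopConj)
open Pool.Agent.H410R3.AX (AxiomA)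

namespace Pool.Agent.Results.MP_e91f84_lc.NotBorelTorus

section General

variable {E H : Type} [NormedAddCommGroup E] [NormedSpace ℝ E] [FiniteDimensional ℝ E]
  [TopologicalSpace H] (I : ModelWithCorners ℝ E H)
  (M : Type) [TopologicalSpace M] [ChartedSpace H M] [IsManifold I ∞ M]

/-- The relation `∼_M`: topological conjugacy, restricted to the Axiom A diffeomorphisms of `M`, as
a subset of `Diff^∞(M) × Diff^∞(M)`. -/
def conjAxiomA : Set (DiffR I M ⊤ × DiffR I M ⊤) :=
  {p | AxiomA I p.1 ∧ AxiomA I p.2 ∧ TopConj p.1.map p.2.map}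

/-- The product topology of `Diff^∞(M) × Diff^∞(M)`, for the `C^∞` topology of `Diff^∞(M)`. -/
@[instance_reducible] def prodTopology : TopologicalSpace (DiffR I M ⊤ × DiffR I M ⊤) :=
  @instTopologicalSpaceProd _ _ (crTopology I M ⊤) (crTopology I M ⊤)

/-- The relation `∼_M` is a Borel subset of `Diff^∞(M) × Diff^∞(M)`. -/
def ConjAxiomAIsBorel : Prop :=
  @MeasurableSet (DiffR I M ⊤ × DiffR I M ⊤) (@borel _ (prodTopology I M)) (conjAxiomA I M)

/-- Every analytic subset of the Baire space is the preimage of `∼_M` by a continuous map whose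
values are pairs of Axiom A diffeomorphisms. -/
def ConjAxiomAIsAnalyticHard : Prop :=
  ∀ S : Set (ℕ → ℕ), AnalyticSet S → ∃ Φ : (ℕ → ℕ) → DiffR I M ⊤ × DiffR I M ⊤,
    @Continuous _ _ _ (prodTopology I M) Φ ∧ (∀ x, AxiomA I (Φ x).1 ∧ AxiomA I (Φ x).2) ∧
      ∀ x, x ∈ S ↔ Φ x ∈ conjAxiomA I M

end General

/-- For the torus `M`, topological conjugacy of the Axiom A diffeomorphisms of `M` is not Borel; it
is even hard for the class of the analytic sets. -/
theorem result :
    ¬ ConjAxiomAIsBorel ((𝓡 1).prod (𝓡 1)) (Circle × Circle) ∧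
      ConjAxiomAIsAnalyticHard ((𝓡 1).prod (𝓡 1)) (Circle × Circle) := by
  have key : ∀ T : List ℕ → Bool, Pool.Agent.H50.AXA.pr T ∈
      conjAxiomA ((𝓡 1).prod (𝓡 1)) (Circle × Circle) ↔ T ∈ Pool.Agent.H39.NonBorel.IF := by
    intro T
    have h := Pool.Agent.H50.AXA.pr_iff T
    have hA := Pool.Agent.H50.AXA.pr_axiomA T
    constructor
    · rintro ⟨-, -, h3⟩
      exact h.1 h3
    · intro hT
      exact ⟨hA.1, hA.2, h.2 hT⟩
  constructor
  · intro hB
    apply Pool.Agent.H39.NonBorel.not_measurableSet_IF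
    have hc := Pool.Agent.H50.AXA.pr_continuous
    have hm : @Measurable _ _ (borel (List ℕ → Bool))
        (@borel _ (prodTopology ((𝓡 1).prod (𝓡 1)) (Circle × Circle)))
        Pool.Agent.H50.AXA.pr :=
      @Continuous.borel_measurable _ _ _ (prodTopology ((𝓡 1).prod (𝓡 1)) (Circle × Circle)) _ hc
    have h1 := hm hB
    have h2 : Pool.Agent.H50.AXA.pr ⁻¹' conjAxiomA ((𝓡 1).prod (𝓡 1)) (Circle × Circle) =
        Pool.Agent.H39.NonBorel.IF := by
      ext T; exact key T
    rw [h2] at h1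
    rw [BorelSpace.measurable_eq (α := List ℕ → Bool)]
    exact h1
  · intro S hS
    obtain ⟨Φ, hΦ, hΦ2⟩ := Pool.Agent.H50.AXA.exists_tree S hS
    refine ⟨fun x => Pool.Agent.H50.AXA.pr (Φ x), ?_, fun x => Pool.Agent.H50.AXA.pr_axiomA _,
      fun x => ?_⟩
    · let _ : TopologicalSpace (DiffR ((𝓡 1).prod (𝓡 1)) (Circle × Circle) ⊤ ×
          DiffR ((𝓡 1).prod (𝓡 1)) (Circle × Circle) ⊤) :=
        prodTopology ((𝓡 1).prod (𝓡 1)) (Circle × Circle)
      have hc : Continuous Pool.Agent.H50.AXA.pr := Pool.Agent.H50.AXA.pr_continuous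
      exact hc.comp hΦ
    · rw [hΦ2, key]

end Pool.Agent.Results.MP_e91f84_lc.NotBorelTorus
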